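import Pool.Agent.Y16.ST.Dos

/-!
# The dimension of the density of states of Sturmian operators does not increase under the Gauss
map after a large digit

The proof uses the starting library of helper811 and his team.
-/

set_option autoImplicit false

open MeasureTheory

namespace Pool.Agent.Results.MP_e5ebf6_mp.SemiInvariance

open Pool.Agent.Helper434.PSCplx (L2)

/-- the value of a vector of `ℓ²(ℤ)` at a site; here `L2` is `lp (fun _ : ℤ => ℂ) 2` -/
noncomputable def amp (u : L2) (n : ℤ) : ℂ := u n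

/-- the characteristic function of `[1 - α, 1)` at `n α + ω mod 1` -/
noncomputable def chi (α ω : ℝ) (n : ℤ) : ℝ :=
  if 1 - α ≤ Int.fract ((n : ℝ) * α + ω) then 1 else 0

/-- `T` is the Sturmian operator with coupling `lam`, frequency `α` and phase `ω` -/
def IsSturmian (lam α ω : ℝ) (T : L2 →L[ℂ] L2) : Prop :=
  ∀ (u : L2) (n : ℤ), amp (T u) n =
    amp u (n + 1) + amp u (n - 1) + ((lam * chi α ω n : ℝ) : ℂ) * amp u n

/-- the number `⟨ψ, g(T) ψ⟩`, with the continuous functional calculus of self-adjoint operators -/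
noncomputable def form {X : Type} [NormedAddCommGroup X] [InnerProductSpace ℂ X] [CompleteSpace X]
    (g : ℝ → ℝ) (T : X →L[ℂ] X) (ψ : X) : ℝ := (inner ℂ ψ (cfc g T ψ)).re

/-- the unit vector at the site `0` -/
noncomputable def e0 : L2 := lp.single 2 (0 : ℤ) (1 : ℂ)

/-- `μ` is the density of states measure: a Borel probability measure such that for every bounded
continuous `g` the integral of `g` is the integral over the phases in `[0,1]` of
`⟨δ₀, g(H_ω) δ₀⟩` (which is a measurable function of the phase) -/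
def IsDensityOfStates (lam α : ℝ) (μ : Measure ℝ) : Prop :=
  IsProbabilityMeasure μ ∧ ∀ H : ℝ → L2 →L[ℂ] L2, (∀ ω, IsSturmian lam α ω (H ω)) →
    ∀ g : ℝ → ℝ, Continuous g → (∃ C, ∀ x, |g x| ≤ C) →
      Measurable (fun ω => form g (H ω) e0) ∧ ∫ x, g x ∂μ = ∫ ω in (0:ℝ)..1, form g (H ω) e0

/-- the upper Hausdorff dimension of a measure -/
noncomputable def upperHausdorffDim (μ : Measure ℝ) : ENNReal :=
  sInf {t | ∃ S : Set ℝ, MeasurableSet S ∧ μ Sᶜ = 0 ∧ t = dimH S}

/-- the Gauss map `x ↦ {1 / x}` -/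
noncomputable def gaussMap (x : ℝ) : ℝ := Int.fract x⁻¹

/-- the continued fraction digits: `α = [a_1, a_2, ...]` with `a_{k+1} = digit α k` -/
noncomputable def digit (α : ℝ) (k : ℕ) : ℕ := ⌊(gaussMap^[k] α)⁻¹⌋₊

/-- the frequencies: irrational numbers in `(0, 1)` -/
def IsFreq (α : ℝ) : Prop := Irrational α ∧ α ∈ Set.Ioo (0:ℝ) 1

/-- the digits grow subexponentially: `log a_k ≤ δ k` for all large `k`, for every `δ > 0` -/
def Subexp (α : ℝ) : Prop :=
  ∀ δ : ℝ, 0 < δ → ∀ᶠ k : ℕ in Filter.atTop, (digit α k : ℝ) ≤ Real.exp (δ * k)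

lemma isSturmian_iff {lam α ω : ℝ} {T : L2 →L[ℂ] L2} : IsSturmian lam α ω T ↔
    Pool.Agent.H695R3.ST.IsSchr (Pool.Agent.H695R3.ST.pot lam α ω) T := by
  have key : ∀ n : ℤ, lam * chi α ω n = Pool.Agent.H695R3.ST.pot lam α ω n := by
    intro n
    unfold chi Pool.Agent.H695R3.ST.pot
    rw [add_comm ((n : ℝ) * α) ω]
    split_ifs <;> simp
  constructor
  · intro h u n
    have := h u n
    rw [key n] at this
    exact this
  · intro h u n
    have := h u n
    rw [← key n] at this
    exact this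

lemma isDos_iff {lam α : ℝ} {μ : Measure ℝ} : IsDensityOfStates lam α μ ↔
    Pool.Agent.W811.Dos.IsDOS lam α μ := by
  constructor
  · rintro ⟨h1, h2⟩
    exact ⟨h1, fun H hH => h2 H fun ω => isSturmian_iff.2 (hH ω)⟩
  · rintro ⟨h1, h2⟩
    exact ⟨h1, fun H hH => h2 H fun ω => isSturmian_iff.1 (hH ω)⟩

lemma upDim_eq (μ : Measure ℝ) : upperHausdorffDim μ = Pool.Agent.W811.Dos.upDim μ := by
  apply le_antisymm
  · refine le_iInf fun S => le_iInf fun hS => le_iInf fun hS0 => sInf_le ⟨S, hS, hS0, rfl⟩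
  · refine le_sInf ?_
    rintro t ⟨S, hS, hS0, rfl⟩
    exact iInf_le_of_le S (iInf_le_of_le hS (iInf_le_of_le hS0 le_rfl))

/-- **Semi-invariance at every frequency with subexponentially growing digits.** For every coupling
`lam > 0` there is `A` such that for every irrational `α ∈ (0,1)` with `log a_k = o(k)` and every
`n` with `a_{n+1} ≥ A`: the upper Hausdorff dimension of every density of states measure for the
frequency `G^{n+1} α` is at most the one for the frequency `α`; for all irrational frequencies there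
is exactly one density of states measure. -/
theorem result : ∀ lam : ℝ, 0 < lam →
    (∀ α, IsFreq α → ∃ N : Measure ℝ, IsDensityOfStates lam α N ∧
      ∀ N', IsDensityOfStates lam α N' → N' = N) ∧
    ∃ A : ℕ, ∀ α, IsFreq α → Subexp α → ∀ n, A ≤ digit α n →
      ∀ N N' : Measure ℝ, IsDensityOfStates lam α N →
        IsDensityOfStates lam (gaussMap^[n + 1] α) N' →
        upperHausdorffDim N' ≤ upperHausdorffDim N := by
  intro lam hlam
  obtain ⟨N, h1, -, ⟨A, h3⟩, -⟩ := Pool.Agent.Y16.ST.dosT hlam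
  refine ⟨fun α hα => ?_, A, ?_⟩
  · obtain ⟨k1, k2⟩ := h1 α hα.1 hα.2
    exact ⟨N α, isDos_iff.2 k1, fun μ' hμ' => k2 μ' (isDos_iff.1 hμ')⟩
  · intro α hα hs n hn M M' hM hM'
    obtain ⟨-, k2⟩ := h1 α hα.1 hα.2
    obtain ⟨g1, g2, g3⟩ := Pool.Agent.W811.Dos.gauss_iter_good hα.1 hα.2.1 hα.2.2 (n + 1)
    obtain ⟨-, k4⟩ := h1 _ g1 ⟨g2, g3⟩
    have e1 : M = N α := k2 M (isDos_iff.1 hM)
    have e2 : M' = N (Pool.Agent.W811.Stu.gauss^[n + 1] α) := k4 M' (isDos_iff.1 hM')
    rw [upDim_eq, upDim_eq, e1, e2]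
    exact h3 α hα.1 hα.2 hs n hn

end Pool.Agent.Results.MP_e5ebf6_mp.SemiInvariance
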