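import Pool.Agent.Y16.ST.Dos
import Pool.Agent.Y16.ST.Iid

/-!
# The dimension of the density of states of Sturmian operators is constant for all typical
measures on the frequencies

The proof uses the starting library of helper811 and his team.
-/

set_option autoImplicit false

open MeasureTheory

namespace Pool.Agent.Results.MP_e5ebf6_mp.TypicalMeasures

open Pool.Agent.Helper434.PSCplx (L2)

/-- the value of a vector of `ℓ²(ℤ)` at a site; here `L2` is `lp (fun _ : ℤ => ℂ) 2` -/
noncomputable def amp (u : L2) (n : ℤ) : ℂ := u n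

/-- the characteristic function of `[1 - α, 1)` at `n α + ω mod 1` -/
noncomputable def chi (α ω : ℝ) (n : ℤ) : ℝ :=
  if 1 - α ≤ Int.fract ((n : ℝ) * α + ω) then 1 else 0

/-- `T` is the Sturmian operator with coupling `lam`, frequency `α` and phase `ω` -/
def IsSturmian (lam α ω : ℝ) (T : L2 →L[ℂ] L2) : Prop :=
  ∀ (u : L2) (n : ℤ), amp (T u) n =
    amp u (n + 1) + amp u (n - 1) + ((lam * chi α ω n : ℝ) : ℂ) * amp u n

/-- the number `⟨ψ, g(T) ψ⟩`, with the continuous functional calculus of self-adjoint operators -/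
noncomputable def form {X : Type} [NormedAddCommGroup X] [InnerProductSpace ℂ X] [CompleteSpace X]
    (g : ℝ → ℝ) (T : X →L[ℂ] X) (ψ : X) : ℝ := (inner ℂ ψ (cfc g T ψ)).re

/-- the unit vector at the site `0` -/
noncomputable def e0 : L2 := lp.single 2 (0 : ℤ) (1 : ℂ)

/-- `μ` is the density of states measure: a Borel probability measure such that for every bounded
continuous `g` the integral of `g` is the integral over the phases in `[0,1]` of
`⟨δ₀, g(H_ω) δ₀⟩` (which is a measurable function of the phase) -/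
def IsDensityOfStates (lam α : ℝ) (μ : Measure ℝ) : Prop :=
  IsProbabilityMeasure μ ∧ ∀ H : ℝ → L2 →L[ℂ] L2, (∀ ω, IsSturmian lam α ω (H ω)) →
    ∀ g : ℝ → ℝ, Continuous g → (∃ C, ∀ x, |g x| ≤ C) →
      Measurable (fun ω => form g (H ω) e0) ∧ ∫ x, g x ∂μ = ∫ ω in (0:ℝ)..1, form g (H ω) e0

/-- the upper Hausdorff dimension of a measure -/
noncomputable def upperHausdorffDim (μ : Measure ℝ) : ENNReal :=
  sInf {t | ∃ S : Set ℝ, MeasurableSet S ∧ μ Sᶜ = 0 ∧ t = dimH S}

/-- the Gauss map `x ↦ {1 / x}` -/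
noncomputable def gaussMap (x : ℝ) : ℝ := Int.fract x⁻¹

/-- the continued fraction digits: `α = [a_1, a_2, ...]` with `a_{k+1} = digit α k` -/
noncomputable def digit (α : ℝ) (k : ℕ) : ℕ := ⌊(gaussMap^[k] α)⁻¹⌋₊

/-- the frequencies: irrational numbers in `(0, 1)` -/
def IsFreq (α : ℝ) : Prop := Irrational α ∧ α ∈ Set.Ioo (0:ℝ) 1

/-- the digits grow subexponentially: `log a_k ≤ δ k` for all large `k`, for every `δ > 0` -/
def Subexp (α : ℝ) : Prop :=
  ∀ δ : ℝ, 0 < δ → ∀ᶠ k : ℕ in Filter.atTop, (digit α k : ℝ) ≤ Real.exp (δ * k)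

/-- sets of positive measure have preimages of positive measure in `{a_1 ≥ A}`, for every `A` -/
def LargeDigits (μ : Measure ℝ) : Prop := ∀ (A : ℕ) (E : Set ℝ), MeasurableSet E → μ E ≠ 0 →
  μ {x | A ≤ digit x 0 ∧ gaussMap x ∈ E} ≠ 0

/-- typical measures: carried by the frequencies with subexponentially growing digits, almost every
orbit of the Gauss map visits every Borel set of positive measure, and `LargeDigits` -/
structure IsTypical (μ : Measure ℝ) : Prop where
  freq : ∀ᵐ α ∂μ, IsFreq α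
  visit : ∀ E : Set ℝ, MeasurableSet E → μ E ≠ 0 → ∀ᵐ α ∂μ, ∃ n, gaussMap^[n] α ∈ E
  large : LargeDigits μ
  growth : ∀ᵐ α ∂μ, Subexp α

/-- `μ` is an ergodic probability measure of the Gauss map on the frequencies, with `LargeDigits`
and integrable `log a_1` -/
structure IsErgodicLarge (μ : Measure ℝ) : Prop where
  prob : IsProbabilityMeasure μ
  ergodic : Ergodic gaussMap μ
  freq : ∀ᵐ α ∂μ, IsFreq α
  large : LargeDigits μ
  log : Integrable (fun α => Real.log (digit α 0)) μ

/-- `μ` is a probability measure on the frequencies for which the digits are independent and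
identically distributed, unbounded, with integrable logarithm -/
structure IsIidDigits (μ : Measure ℝ) : Prop where
  prob : IsProbabilityMeasure μ
  freq : ∀ᵐ α ∂μ, IsFreq α
  indep : ProbabilityTheory.iIndepFun (fun (k : ℕ) (α : ℝ) => digit α k) μ
  ident : ∀ k, μ.map (fun α => digit α k) = μ.map (fun α => digit α 0)
  unbdd : ∀ A : ℕ, μ {α | A ≤ digit α 0} ≠ 0
  log : Integrable (fun α => Real.log (digit α 0)) μ

lemma isSturmian_iff {lam α ω : ℝ} {T : L2 →L[ℂ] L2} : IsSturmian lam α ω T ↔
    Pool.Agent.H695R3.ST.IsSchr (Pool.Agent.H695R3.ST.pot lam α ω) T := by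
  have key : ∀ n : ℤ, lam * chi α ω n = Pool.Agent.H695R3.ST.pot lam α ω n := by
    intro n
    unfold chi Pool.Agent.H695R3.ST.pot
    rw [add_comm ((n : ℝ) * α) ω]
    split_ifs <;> simp
  constructor
  · intro h u n
    have := h u n
    rw [key n] at this
    exact this
  · intro h u n
    have := h u n
    rw [← key n] at this
    exact this

lemma isDos_iff {lam α : ℝ} {μ : Measure ℝ} : IsDensityOfStates lam α μ ↔
    Pool.Agent.W811.Dos.IsDOS lam α μ := by
  constructor
  · rintro ⟨h1, h2⟩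
    exact ⟨h1, fun H hH => h2 H fun ω => isSturmian_iff.2 (hH ω)⟩
  · rintro ⟨h1, h2⟩
    exact ⟨h1, fun H hH => h2 H fun ω => isSturmian_iff.1 (hH ω)⟩

lemma upDim_eq (μ : Measure ℝ) : upperHausdorffDim μ = Pool.Agent.W811.Dos.upDim μ := by
  apply le_antisymm
  · refine le_iInf fun S => le_iInf fun hS => le_iInf fun hS0 => sInf_le ⟨S, hS, hS0, rfl⟩
  · refine le_sInf ?_
    rintro t ⟨S, hS, hS0, rfl⟩
    exact iInf_le_of_le S (iInf_le_of_le hS (iInf_le_of_le hS0 le_rfl))

lemma typ {μ : Measure ℝ} (h : IsTypical μ) : Pool.Agent.Y16.ST.Typical μ :=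
  ⟨h.freq, h.visit, h.large, h.growth⟩

lemma typ' {μ : Measure ℝ} (h : Pool.Agent.Y16.ST.Typical μ) : IsTypical μ :=
  ⟨h.base, h.visit, h.large, h.growth⟩

lemma typ_all {μ : Measure ℝ} (h : μ = volume.restrict (Set.Ioo (0:ℝ) 1) ∨ IsErgodicLarge μ ∨
    IsIidDigits μ ∨ IsTypical μ) : Pool.Agent.Y16.ST.Typical μ := by
  rcases h with h | h | h | h
  · rw [h]
    exact Pool.Agent.Y16.ST.typical_volume
  · have := h.prob
    exact Pool.Agent.Y16.ST.typical_of_ergodic h.ergodic h.freq h.log h.large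
  · have := h.prob
    exact Pool.Agent.Y16.ST.typical_of_iid h.freq h.indep h.ident h.unbdd h.log
  · exact typ h

/-- **Main theorem.** For every coupling `lam > 0` and every measure `μ` which is Lebesgue measure
on `(0,1)`, or an ergodic probability measure of the Gauss map on the frequencies with `LargeDigits`
and integrable `log a_1`, or a law with independent and identically distributed unbounded digits
with integrable logarithm, or more generally a typical measure, there is `d ∈ [0,1]` such that for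
`μ`-almost every frequency the Sturmian operators exist and are self-adjoint, there is exactly one
density of states measure, and its upper Hausdorff dimension is `d`. -/
theorem result : ∀ lam : ℝ, 0 < lam → ∀ μ : Measure ℝ,
    (μ = volume.restrict (Set.Ioo (0:ℝ) 1) ∨ IsErgodicLarge μ ∨ IsIidDigits μ ∨ IsTypical μ) →
    ∃ d : ℝ, 0 ≤ d ∧ d ≤ 1 ∧ ∀ᵐ α ∂μ,
      (∀ ω : ℝ, ∃ T, IsSturmian lam α ω T ∧ IsSelfAdjoint T) ∧
      ∃ N : Measure ℝ, IsDensityOfStates lam α N ∧ (∀ N', IsDensityOfStates lam α N' → N' = N) ∧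
        upperHausdorffDim N = ENNReal.ofReal d := by
  intro lam hlam μ h0
  obtain ⟨N, h1, -, -, h4⟩ := Pool.Agent.Y16.ST.dosT hlam
  obtain ⟨c, c0, c1, hc⟩ := h4 μ (typ_all h0)
  refine ⟨c, c0, c1, ?_⟩
  filter_upwards [hc, (typ_all h0).base] with α hα hb
  obtain ⟨k1, k2⟩ := h1 α hb.1 hb.2
  refine ⟨fun ω => ?_, N α, isDos_iff.2 k1, fun μ' hμ' => k2 μ' (isDos_iff.1 hμ'), ?_⟩
  · obtain ⟨T, hT, hs⟩ := Pool.Agent.H695R3.ST.exists_schr
      (V := Pool.Agent.H695R3.ST.pot lam α ω) (C := lam)
      (Pool.Agent.W811.Dos.pot_abs hlam.le α ω)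
    exact ⟨T, isSturmian_iff.2 hT, hs⟩
  · rw [upDim_eq]
    exact hα

end Pool.Agent.Results.MP_e5ebf6_mp.TypicalMeasures
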